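import Pool.Agent.N520.AN.Stm3

set_option autoImplicit false

open Set Filter Topology

namespace Pool.Agent.N764.AN2.NoFix

open Pool.Agent.N520.AN

variable {E : Type} [NormedAddCommGroup E] [NormedSpace ℝ E] [FiniteDimensional ℝ E]

theorem cont (c : E ≃ₗ[ℝ] E) : Continuous (fun v => c v) :=
  LinearMap.continuous_of_finiteDimensional (c : E →ₗ[ℝ] E)

theorem bdd (c : E ≃ₗ[ℝ] E) : ∃ K : ℝ, 0 ≤ K ∧ ∀ v, ‖c v‖ ≤ K * ‖v‖ := by
  let L : E →L[ℝ] E := LinearMap.toContinuousLinearMap (c : E →ₗ[ℝ] E)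
  exact ⟨‖L‖, norm_nonneg _, fun v => L.le_opNorm v⟩

theorem tend0 (c : E ≃ₗ[ℝ] E) {b : ℕ → E} (hb : Tendsto b atTop (𝓝 0)) :
    Tendsto (fun j => c (b j)) atTop (𝓝 0) := by
  have h := ((cont c).tendsto 0).comp hb
  have h0 : c 0 = 0 := map_zero c
  rw [h0] at h
  exact h

theorem att_mul (c : E ≃ₗ[ℝ] E) (g : ℕ → E ≃ₗ[ℝ] E) :
    att (fun j => c * g j) = (att g).map (c : E →ₗ[ℝ] E) := by
  ext v
  rw [Submodule.mem_map]
  constructor
  · rintro ⟨b, hb, hv⟩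
    refine ⟨c.symm v, ⟨b, hb, ?_⟩, c.apply_symm_apply v⟩
    have := ((cont c.symm).tendsto v).comp hv
    refine this.congr fun j => ?_
    show c.symm (c (g j (b j))) = g j (b j)
    exact c.symm_apply_apply _
  · rintro ⟨w, ⟨b, hb, hw⟩, rfl⟩
    exact ⟨b, hb, ((cont c).tendsto w).comp hw⟩

theorem big_mul (c : E ≃ₗ[ℝ] E) (g : ℕ → E ≃ₗ[ℝ] E) :
    big (fun j => c * g j) = (big g).map (c : E →ₗ[ℝ] E) := by
  ext v
  rw [Submodule.mem_map]
  constructor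
  · rintro ⟨b, C, hb, hv⟩
    refine ⟨c.symm v, ⟨b, C, hb, ?_⟩, c.apply_symm_apply v⟩
    have := ((cont c.symm).tendsto v).comp hv
    refine this.congr fun j => ?_
    show c.symm (c (g j (b j))) = g j (b j)
    exact c.symm_apply_apply _
  · rintro ⟨w, ⟨b, C, hb, hw⟩, rfl⟩
    exact ⟨b, C, hb, ((cont c).tendsto w).comp hw⟩

theorem att_inv_mul (c : E ≃ₗ[ℝ] E) (g : ℕ → E ≃ₗ[ℝ] E) :
    att (inv fun j => c * g j) = att (inv g) := by
  ext v
  constructor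
  · rintro ⟨b, hb, hv⟩
    exact ⟨fun j => c.symm (b j), tend0 c.symm hb, hv⟩
  · rintro ⟨b, hb, hv⟩
    refine ⟨fun j => c (b j), tend0 c hb, hv.congr fun j => ?_⟩
    show (g j).symm (b j) = (g j).symm (c.symm (c (b j)))
    rw [c.symm_apply_apply]

theorem big_inv_mul (c : E ≃ₗ[ℝ] E) (g : ℕ → E ≃ₗ[ℝ] E) :
    big (inv fun j => c * g j) = big (inv g) := by
  ext v
  constructor
  · rintro ⟨b, C, hb, hv⟩
    obtain ⟨K, hK, h⟩ := bdd c.symm
    exact ⟨fun j => c.symm (b j), K * C, fun j => (h _).trans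
      (mul_le_mul_of_nonneg_left (hb j) hK), hv⟩
  · rintro ⟨b, C, hb, hv⟩
    obtain ⟨K, hK, h⟩ := bdd c
    refine ⟨fun j => c (b j), K * C, fun j => (h _).trans
      (mul_le_mul_of_nonneg_left (hb j) hK), hv.congr fun j => ?_⟩
    show (g j).symm (b j) = (g j).symm (c.symm (c (b j)))
    rw [c.symm_apply_apply]

omit [FiniteDimensional ℝ E] in
theorem t_nofix (h1 : S2_SUB) (h2 : S2_TWO) : S3_NOFIX := by
  intro E _ _ _ q Λ hΛ hn
  rintro ⟨k, ⟨-, g, hg, hFl, hk⟩, c, hc, x, hx, hcx⟩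
  have hpos := hΛ.pos
  -- `g` is divergent
  have hne : att g ≠ ⊥ := by
    intro h
    have := hFl.1
    rw [h, finrank_bot] at this
    omega
  obtain ⟨v0, hv0, hv0'⟩ := Submodule.exists_mem_ne_zero_of_ne_bot hne
  have hDiv : Div g := div_of_att hv0 hv0'
  obtain ⟨φ, hφ, hF1, hF2⟩ := h2 E q Λ hΛ g hg hDiv
  have hbig : big (g ∘ φ) = big g := (((h1 E q Λ hΛ g hg).2.2 hFl) φ hφ).2
  have hc' : ∃ c' ∈ Λ, (big (g ∘ φ)).map (c' : E →ₗ[ℝ] E) ≠ big (inv g ∘ φ) := by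
    by_cases he : big (g ∘ φ) = big (inv g ∘ φ)
    · refine ⟨c, hc, fun h => ?_⟩
      have h3 : c x ∈ (big (g ∘ φ)).map (c : E →ₗ[ℝ] E) :=
        Submodule.mem_map_of_mem (f := (c : E →ₗ[ℝ] E)) (by rw [hbig]; exact (hk x).1 hx)
      rw [h, ← he, hbig] at h3
      exact hcx ((hk _).2 h3)
    · refine ⟨1, Λ.one_mem, fun h => he ?_⟩
      rw [← h]
      ext v
      simp [Submodule.mem_map]
  obtain ⟨c', hc', hne'⟩ := hc'
  set g' : ℕ → E ≃ₗ[ℝ] E := g ∘ φ with hg'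
  set h : ℕ → E ≃ₗ[ℝ] E := fun j => c' * g' j with hh
  have hinv : inv g ∘ φ = inv g' := rfl
  rw [hinv] at hne' hF2
  have hhm : ∀ j, h j ∈ Λ := fun j => Λ.mul_mem hc' (hg _)
  have hhm' : ∀ j, inv h j ∈ Λ := fun j => inv_mem' hhm j
  have hFh : Fl q h := by
    refine ⟨?_, ?_⟩
    · rw [hh, att_mul, LinearEquiv.finrank_map_eq]; exact hF1.1
    · rw [hh, big_mul, LinearEquiv.finrank_map_eq]; exact hF1.2
  have hFi : Fl q (inv h) := by
    refine ⟨?_, ?_⟩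
    · rw [hh, att_inv_mul]; exact hF2.1
    · rw [hh, big_inv_mul]; exact hF2.2
  have hbne : big h ≠ big (inv h) := by
    rw [hh, big_inv_mul, big_mul]; exact hne'
  have hatt : att h ⊓ big (inv h) = ⊥ :=
    (hΛ.anti h (inv h) hhm hhm' hFh hFi).resolve_left hbne
  have heq : att h = big h := by
    apply Submodule.eq_of_le_of_finrank_eq (att_le_big h)
    have e1 := hFh.1
    have e2 := hFh.2
    omega
  by_contra hcon
  push Not at hcon
  have hv : ∀ j, ∃ v : E, h j v = v ∧ ‖v‖ = 1 := by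
    intro j
    obtain ⟨v, hv, hv0⟩ := hcon (h j) (hhm j)
    refine ⟨‖v‖⁻¹ • v, ?_, ?_⟩
    · rw [map_smul, hv]
    · rw [norm_smul, norm_inv, norm_norm, inv_mul_cancel₀ (norm_ne_zero_iff.2 hv0)]
  choose w hw hw1 using hv
  have : ProperSpace E := FiniteDimensional.proper ℝ E
  obtain ⟨w0, hw0, ψ, hψ, hlim⟩ := (isCompact_sphere (0 : E) 1).tendsto_subseq
    (x := w) (fun j => by rw [mem_sphere_zero_iff_norm]; exact hw1 j)
  have m1 : w0 ∈ big (h ∘ ψ) := by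
    refine ⟨w ∘ ψ, 1, fun j => (hw1 _).le, hlim.congr fun j => ?_⟩
    show w (ψ j) = h (ψ j) (w (ψ j))
    rw [hw]
  have m2 : w0 ∈ big (inv h ∘ ψ) := by
    refine ⟨w ∘ ψ, 1, fun j => (hw1 _).le, hlim.congr fun j => ?_⟩
    show w (ψ j) = (h (ψ j)).symm (w (ψ j))
    rw [LinearEquiv.eq_symm_apply, hw]
  rw [(((h1 E q Λ hΛ h hhm).2.2 hFh) ψ hψ).2, ← heq] at m1
  rw [(((h1 E q Λ hΛ (inv h) hhm').2.2 hFi) ψ hψ).2] at m2
  have m3 : w0 ∈ att h ⊓ big (inv h) := ⟨m1, m2⟩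
  rw [hatt, Submodule.mem_bot] at m3
  rw [m3] at hw0
  simp at hw0

end Pool.Agent.N764.AN2.NoFix
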